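import Mathlib
import Pool.Agent.Results.MP_1b52a3_lc.NoBorelReduction
import Pool.Agent.W922.MD.Weak

/-!
# Conjugacy of ergodic automorphisms does not Borel reduce to conjugacy in a full group

`Aut μ` is `Aut(X, μ)` with the weak topology, and `FullGroup h` is the full group `[T₀]` of the
ergodic automorphism `T₀` with the uniform metric (the definitions of the starting file
`NoBorelReduction`, which answers Q1).

`ErgAut μ` are the ergodic elements of `Aut(X, μ)`, `DistalAut μ` the ergodic measure distal ones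
(`MeasureDistal`, file `Pool/Agent/W922/MD/Defs.lean`), and `ErgFull h` the ergodic elements of the
full group, all with the subspace topologies.
-/

set_option autoImplicit false

open Filter Topology Set MeasureTheory

namespace Pool.Agent.Results.MP_1b52a3_lc.ErgodicNoBorelReduction

open Pool.Agent.Results.MP_1b52a3_lc.NoBorelReduction (PreAut Aut mk_eq_mk_iff
  secondCountable_fullGroup)
open Pool.Agent.Helper212.ConjBorel (PreFull FullGroup conjRel measurableSet_conjRel)
open Pool.Agent.W922.MD (MeasureDistal)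

section Defs

variable {X : Type} [MeasurableSpace X]

/-- The space of the ergodic elements of `Aut(X, μ)`, with the weak topology. -/
abbrev ErgAut (μ : Measure X) : Type :=
  {a : Aut μ // ∃ T : PreAut μ, QuotientGroup.mk T = a ∧ Ergodic (T.1 : X → X) μ}

/-- The space of the ergodic measure distal elements of `Aut(X, μ)`, with the weak topology. -/
abbrev DistalAut (μ : Measure X) : Type :=
  {a : Aut μ // ∃ T : PreAut μ, QuotientGroup.mk T = a ∧ Ergodic (T.1 : X → X) μ ∧
    MeasureDistal μ (T.1 : X → X)}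

/-- The space of the ergodic elements of the full group `[T₀]`, with the uniform metric. -/
abbrev ErgFull [StandardBorelSpace X] {μ : Measure X} [IsProbabilityMeasure μ] {T₀ : X ≃ᵐ X}
    (h : Ergodic T₀ μ) : Type :=
  {a : FullGroup h // ∃ V : PreFull h, SeparationQuotient.mk V = a ∧ Ergodic (V.1 : X → X) μ}

end Defs

/-! ### The proof -/

open Pool.Agent.W922.Dis
open Pool.Agent.W922.MD (continuous_meas_Fm mu mp_Fm mp_cjH ergodic_Fm distal branch_of_conj)

section

variable {X : Type} [MeasurableSpace X] {μ : Measure X}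
variable (e : W922.Dis.X ≃ᵐ X) (he : MeasurePreserving e mu μ)

/-- the homeomorphisms as measurable equivalences -/
noncomputable def FE (τ : List ℕ → Bool) (b : ℤ) : W922.Dis.X ≃ᵐ W922.Dis.X :=
  (Fe τ b).toMeasurableEquiv

/-- transport -/
noncomputable def tp (F : W922.Dis.X ≃ᵐ W922.Dis.X) (hF : MeasurePreserving F mu mu) :
    PreAut μ :=
  ⟨((e.symm.trans F).trans e).toEquiv,
    ⟨he.comp (hF.comp (MeasurePreserving.symm e he)),
      he.comp ((MeasurePreserving.symm F hF).comp (MeasurePreserving.symm e he))⟩⟩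

/-- the transformation -/
noncomputable def PA (τ : List ℕ → Bool) (b : ℤ) : PreAut μ := tp e he (FE τ b) (mp_Fm τ b)

theorem continuous_PA (b : ℤ) : Continuous fun τ => PA e he τ b := by
  rw [continuous_induced_rng]
  refine continuous_pi fun p => ?_
  obtain ⟨⟨A, hA⟩, ⟨B, hB⟩⟩ := p
  have h1 := continuous_meas_Fm b (e ⁻¹' A) (e ⁻¹' B) (e.measurable hA)
  have h2 : ∀ τ, μ.real ((PA e he τ b).1 ⁻¹' A ∩ B)
      = mu.real ((Fm τ b) ⁻¹' (e ⁻¹' A) ∩ e ⁻¹' B) := by
    intro τ
    have h3 : e ⁻¹' ((PA e he τ b).1 ⁻¹' A ∩ B) = (Fm τ b) ⁻¹' (e ⁻¹' A) ∩ e ⁻¹' B := by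
      ext x
      show (e (Fm τ b (e.symm (e x))) ∈ A ∧ e x ∈ B) ↔ (e (Fm τ b x) ∈ A ∧ e x ∈ B)
      rw [e.symm_apply_apply]
    have h4 : MeasurableSet ((PA e he τ b).1 ⁻¹' A ∩ B) :=
      ((PA e he τ b).2.1.measurable hA).inter hB
    rw [← h3, measureReal_def, measureReal_def, he.measure_preimage h4.nullMeasurableSet]
  exact h1.congr fun τ => (h2 τ).symm

theorem PA_ergodic (τ : List ℕ → Bool) (b : ℤ) : Ergodic ((PA e he τ b).1 : X → X) μ :=
  (he.ergodic_conjugate_iff (f := Fm τ b)).2 (ergodic_Fm τ b)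

theorem PA_distal (τ : List ℕ → Bool) (b : ℤ) : MeasureDistal μ ((PA e he τ b).1 : X → X) :=
  (distal τ b).conj e he

/-- the points of `DistalAut` -/
noncomputable def pt (τ : List ℕ → Bool) (b : ℤ) : DistalAut μ :=
  ⟨QuotientGroup.mk (PA e he τ b), PA e he τ b, rfl, PA_ergodic e he τ b, PA_distal e he τ b⟩

theorem continuous_pt (b : ℤ) : Continuous fun τ => pt e he τ b :=
  Continuous.subtype_mk (continuous_quotient_mk'.comp (continuous_PA e he b)) _

theorem conj_iff' (τ : List ℕ → Bool) :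
    (∃ U : Aut μ, (pt e he τ 1).1 = U * (pt e he τ 0).1 * U⁻¹) ↔
    ∃ h : W922.Dis.X ≃ₜ W922.Dis.X, ∀ x, h (Fm τ 1 x) = Fm τ 0 (h x) := by
  rw [W922.Dis.conj_iff]
  constructor
  · rintro ⟨U, hU⟩
    obtain ⟨W, rfl⟩ := QuotientGroup.mk_surjective U
    have hU' : (QuotientGroup.mk (PA e he τ 1) : Aut μ) =
      QuotientGroup.mk W * QuotientGroup.mk (PA e he τ 0) * (QuotientGroup.mk W)⁻¹ := hU
    rw [eq_mul_inv_iff_mul_eq] at hU'
    have hU2 : (QuotientGroup.mk W : Aut μ)⁻¹ * QuotientGroup.mk (PA e he τ 1) =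
        QuotientGroup.mk (PA e he τ 0) * (QuotientGroup.mk W)⁻¹ := by
      rw [inv_mul_eq_iff_eq_mul, ← mul_assoc, eq_mul_inv_iff_mul_eq]
      exact hU'
    have h1 : (QuotientGroup.mk (W⁻¹ * PA e he τ 1) : Aut μ) =
      QuotientGroup.mk (PA e he τ 0 * W⁻¹) := hU2
    rw [mk_eq_mk_iff] at h1
    have h2 : ∀ᵐ x ∂μ, (W⁻¹).1 (e (Fm τ 1 (e.symm x))) = e (Fm τ 0 (e.symm ((W⁻¹).1 x))) := h1
    have h3 := he.quasiMeasurePreserving.ae h2
    refine branch_of_conj (h := fun x => e.symm ((W⁻¹).1 (e x)))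
      (e.symm.measurable.comp ((W⁻¹).2.1.measurable.comp e.measurable)) ?_
    filter_upwards [h3] with x hx
    rw [e.symm_apply_apply] at hx
    show e.symm ((W⁻¹).1 (e (Fm τ 1 x))) = Fm τ 0 (e.symm ((W⁻¹).1 (e x)))
    rw [hx, e.symm_apply_apply]
  · rintro ⟨b, hb⟩
    have hs := sol_of_branch hb
    let f := solf b
    let UE : W922.Dis.X ≃ᵐ W922.Dis.X := (cjH f).toMeasurableEquiv
    have hU : MeasurePreserving UE mu mu := mp_cjH f
    refine ⟨(QuotientGroup.mk (tp e he UE hU) : Aut μ)⁻¹, ?_⟩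
    rw [inv_inv, eq_comm, mul_assoc, inv_mul_eq_iff_eq_mul]
    refine congrArg QuotientGroup.mk (Subtype.ext (Equiv.ext fun x => ?_))
    show e (Fm τ 0 (e.symm (e (cjH f (e.symm x))))) = e (cjH f (e.symm (e (Fm τ 1 (e.symm x)))))
    rw [e.symm_apply_apply, e.symm_apply_apply, conj_of_sol hs]

end

section Main

variable {X : Type} [MeasurableSpace X] [StandardBorelSpace X] {μ : Measure X}
  [IsProbabilityMeasure μ] [NullSingletonClass μ] {T₀ : X ≃ᵐ X}

theorem exists_model : ∃ e : W922.Dis.X ≃ᵐ X, MeasurePreserving e mu μ := by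
  obtain ⟨e1, h1⟩ := Helper212.Sq.exists_mp_equiv mu
  obtain ⟨e2, h2⟩ := Helper212.Sq.exists_mp_equiv μ
  exact ⟨e1.trans e2.symm, (MeasurePreserving.symm e2 h2).comp h1⟩

theorem distal_case (h : Ergodic T₀ μ) :
    ¬ ∃ f : DistalAut μ → FullGroup h, Measurable[borel (DistalAut μ), borel (FullGroup h)] f ∧
      ∀ S S' : DistalAut μ, (∃ U : Aut μ, S'.1 = U * S.1 * U⁻¹) ↔
        ∃ V : FullGroup h, f S' = V * f S * V⁻¹ := by
  rintro ⟨f, hf, hred⟩
  obtain ⟨e, he⟩ := exists_model (μ := μ)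
  refine W922.Dis.not_borel ?_
  let _ : MeasurableSpace (List ℕ → Bool) := borel _
  have : BorelSpace (List ℕ → Bool) := ⟨rfl⟩
  let _ : MeasurableSpace (DistalAut μ) := borel _
  have : BorelSpace (DistalAut μ) := ⟨rfl⟩
  let _ : MeasurableSpace (FullGroup h) := borel _
  have : BorelSpace (FullGroup h) := ⟨rfl⟩
  have : SecondCountableTopology (FullGroup h) := secondCountable_fullGroup
  have hm : ∀ b : ℤ, Measurable fun τ : List ℕ → Bool => f (pt e he τ b) := fun b =>
    hf.comp (continuous_pt e he b).measurable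
  have hE := measurableSet_conjRel h
  have hb : borel (FullGroup h × FullGroup h) = Prod.instMeasurableSpace :=
    (BorelSpace.measurable_eq (α := FullGroup h × FullGroup h)).symm
  rw [hb] at hE
  have h3 := ((hm 1).prodMk (hm 0)) hE
  convert h3 using 1
  ext τ
  exact (conj_iff' e he τ).symm.trans (hred _ _)

end Main

/-- **Answer to Q2.** Let `T₀` be an ergodic automorphism of a standard atomless probability space
`(X, μ)`. The conjugacy relation of `Aut(X, μ)` on the ergodic elements is not Borel reducible to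
the conjugacy relation of the full group `[T₀]` on the ergodic elements of `[T₀]`. More precisely,
there is no Borel reduction of the conjugacy relation of `Aut(X, μ)` on the ergodic measure distal
elements to the conjugacy relation of `[T₀]` on all of `[T₀]`. -/
theorem result {X : Type} [MeasurableSpace X] [StandardBorelSpace X] {μ : Measure X}
    [IsProbabilityMeasure μ] [NullSingletonClass μ] {T₀ : X ≃ᵐ X} (h : Ergodic T₀ μ) :
    (¬ ∃ f : ErgAut μ → ErgFull h, Measurable[borel (ErgAut μ), borel (ErgFull h)] f ∧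
      ∀ S S' : ErgAut μ, (∃ U : Aut μ, S'.1 = U * S.1 * U⁻¹) ↔
        ∃ V : FullGroup h, (f S').1 = V * (f S).1 * V⁻¹) ∧
    ¬ ∃ f : DistalAut μ → FullGroup h, Measurable[borel (DistalAut μ), borel (FullGroup h)] f ∧
      ∀ S S' : DistalAut μ, (∃ U : Aut μ, S'.1 = U * S.1 * U⁻¹) ↔
        ∃ V : FullGroup h, f S' = V * f S * V⁻¹ := by
  refine ⟨?_, distal_case h⟩
  rintro ⟨f, hf, hred⟩
  let ι : DistalAut μ → ErgAut μ := fun S => ⟨S.1, by
    obtain ⟨T, h1, h2, -⟩ := S.2
    exact ⟨T, h1, h2⟩⟩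
  refine distal_case h ⟨fun S => (f (ι S)).1, ?_, fun S S' => hred (ι S) (ι S')⟩
  let _ : MeasurableSpace (DistalAut μ) := borel _
  have : BorelSpace (DistalAut μ) := ⟨rfl⟩
  let _ : MeasurableSpace (ErgAut μ) := borel _
  have : BorelSpace (ErgAut μ) := ⟨rfl⟩
  let _ : MeasurableSpace (ErgFull h) := borel _
  have : BorelSpace (ErgFull h) := ⟨rfl⟩
  let _ : MeasurableSpace (FullGroup h) := borel _
  have : BorelSpace (FullGroup h) := ⟨rfl⟩
  have h1 : Continuous ι := Continuous.subtype_mk continuous_subtype_val _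
  have h2 : Continuous fun a : ErgFull h => a.1 := continuous_subtype_val
  exact h2.measurable.comp (hf.comp h1.measurable)

end Pool.Agent.Results.MP_1b52a3_lc.ErgodicNoBorelReduction
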